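import Pool.Agent.H92.Scaling2

set_option autoImplicit false
open MeasureTheory

namespace Pool.Agent.Results.MP_5e7104_an.Cardinal

/-- `2^{j/2} φ(2^j x - k)` -/
noncomputable def dil (φ : ℝ → ℂ) (j k : ℤ) (x : ℝ) : ℂ :=
  (((2 : ℝ) ^ ((j : ℝ) / 2) : ℝ) : ℂ) * φ ((2 : ℝ) ^ j * x - k)

/-- `V_j`: the `L²` functions in the `L²`-closure of the span of the `2^{j/2} φ(2^j · - k)` -/
def V (φ : ℝ → ℂ) (j : ℤ) : Set (ℝ → ℂ) :=
  {f | MemLp f 2 volume ∧ ∀ ε : ENNReal, 0 < ε →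
    ∃ g ∈ Submodule.span ℂ (Set.range (dil φ j)), eLpNorm (f - g) 2 volume < ε}

/-- orthogonal scaling function of an orthonormal multiresolution analysis -/
def IsScaling (φ : ℝ → ℂ) : Prop :=
  MemLp φ 2 volume ∧
  (∀ k l : ℤ, ∫ x, φ (x - k) * (starRingEnd ℂ) (φ (x - l)) = if k = l then 1 else 0) ∧
  (∃ (s : Finset ℤ) (d : ℤ → ℂ), ∀ t : ℝ, φ (t / 2) = ∑ k ∈ s, d k * φ (t - k)) ∧
  (∀ j : ℤ, V φ j ⊆ V φ (j + 1)) ∧
  (∀ f : ℝ → ℂ, MemLp f 2 volume → ∀ ε : ENNReal, 0 < ε →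
    ∃ j : ℤ, ∃ g ∈ V φ j, eLpNorm (f - g) 2 volume < ε) ∧
  ∀ f : ℝ → ℂ, (∀ j : ℤ, f ∈ V φ j) → f =ᵐ[volume] 0

open Pool.Agent.H92.Scaling in
theorem result : ∃ φ : ℝ → ℂ, IsScaling φ ∧ Continuous φ ∧ (∀ x, x ∉ Set.Icc (0 : ℝ) 3 → φ x = 0) ∧
    ∃ (P : ℤ) (t₀ : ℝ), ∀ k : ℤ, φ (t₀ + k) = if k = P then 1 else 0 := by
  obtain ⟨a, b, ha, hb, h1, h2⟩ := exists_ab
  obtain ⟨f, h, hT⟩ := exists_fixed ha hb
  have ho := orth ha hb h2 h hT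
  have e : ∀ k : ℤ, dl f 0 k = fun x => (f (x - k) : ℂ) := fun k => by funext x; simp [dl]
  refine ⟨fun x => (f x : ℂ), ⟨?_, fun k l => ?_, ⟨{0, 1, 2, 3}, fun k =>
    if k = 0 then 1 - a else if k = 1 then 1 + b else if k = 2 then a else -b, fun t => ?_⟩,
    fun j g hg => ⟨hg.1, fun ε hε => ?_⟩, fun g hg ε hε => ?_,
    fun g hg => inter h ho (hg 0).1 fun j => (hg j).2⟩,
    Complex.continuous_ofReal.comp h.cont, fun x hx => ?_, 0, 2 / 3, fun k => ?_⟩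
  · simpa [e] using dl_mem h 0 0
  · simpa only [e] using dl_orth ho 0 k l
  · conv_lhs => rw [← hT]
    simp [T, mul_div_cancel₀]
    ring
  · obtain ⟨u, u1, u2⟩ := hg.2 ε hε
    exact ⟨u, nested hT j u1, u2⟩
  · obtain ⟨j, G, G1, G2⟩ := dense h hg hε
    exact ⟨j, G, ⟨span_mem h j G1, fun δ hδ => ⟨G, G1, by simpa using hδ⟩⟩, G2⟩
  · rw [Complex.ofReal_eq_zero]
    rcases le_total x 0 with h0 | h0
    · exact h.left x h0
    · exact h.right x (by by_contra h3; exact hx ⟨h0, by linarith⟩)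
  · simp only [cardinal ha hb h1 h hT k]
    split_ifs <;> simp

end Pool.Agent.Results.MP_5e7104_an.Cardinal
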